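import Pool.Agent.H378.JW.Fin

/-!
# Dade's ordinary conjecture: one defect for each block decides

Let `p` be a prime number, `F` an algebraically closed field of characteristic `p` and `red` a ring
homomorphism from the algebraic integers to `F`. A `p`-block `B` of a finite group `G` is (the central
character of) a block of `F[G]`: an algebra homomorphism from the centre of `F[G]` (the class
functions `G → F` with the convolution product) to `F`. An irreducible character `θ` of a subgroup `H`
satisfies `bl(θ)^G = B` if `B` is the composition of the restriction of class functions from `G` to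
`H` with the reduction of the central character of `θ`.

Proof. Let `P(x) = ∑_d S_d(B) x^d` for Dade's alternating sums `S_d(B)` and let `C` be a group of
order `p`. There is exactly one block `B'` of `G ≀ C` above `B ⊗ ⋯ ⊗ B`, its defect is `p d(B) + 1`,
and we show `p P'(x) = P(x)^p + (p ^ 2 x - 1) P(x^p) - p ^ 2 x P(x)` for its generating function `P'`:
the alternating sum over the chains of `p`-subgroups of `G ≀ C` is the sum over the chains of
`p`-subgroups of the base group minus the sums over the chains of `p`-subgroups of the centralisers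
of the complements of order `p`; the first sum is computed from the `K`-invariant `p`-subgroups of the
base group (`P(x)^p + (p ^ 2 x - 1) P(x^p)`), and the complements have the centralisers `G × C` and the
Frobenius twist of `B` there, which has the same sums as `B` (`p ^ 2 x P(x)`). If `c x^m`, `m ≥ 2`, is
the lowest term of `P`, then the lowest term of `P'` is `- p c x^(m + 1)`, and the lowest term of the
`k`-th iterate is `(-p)^k c x^(m + k)`, while the logarithm of its defect grows like `k`. So the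
differences `m - log_p d(B)` do not change under these steps, but they become arbitrarily large for
the fourth powers of late iterates. The function `φ` grows faster than the logarithm, with steps of at
most two; so, by the discrete intermediate value theorem, there are iterates with `m = φ(d(B))`. The
wreath products with groups of prime order `q ≠ p` remove the prime divisor `q` of `c`.
-/

set_option autoImplicit false

noncomputable section

namespace Pool.Agent.Results.MP_3f89b9_al.OneDefectDecides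

open Pool.Agent.Y63.KR (alternatingSum)
open Pool.Agent.Y63.NV (IsClassFun IsBlock centralValue)
open Pool.Agent.Y63.AWC (IsIrreducibleCharacter)

variable {F : Type} [Field F]

/-- `k^d(B_σ)` for `G_σ = H`: the number of the irreducible characters `θ` of the subgroup `H` of
`p`-defect `d` with `bl(θ)^G = B`. -/
def kB (p : ℕ) (red : integralClosure ℤ ℂ →+* F) {G : Type} [Group G] (B : (G → F) → F) (d : ℕ)
    (H : Subgroup G) : ℕ :=
  Nat.card {θ : H → ℂ // (IsIrreducibleCharacter θ ∧
      ∀ f : G → F, IsClassFun f → centralValue red θ (fun x => f x) = B f) ∧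
    ∃ n : ℕ, θ 1 = (n : ℂ) ∧ n.factorization p + d = (Nat.card H).factorization p}

/-- Dade's alternating sum `S_d(B) = ∑_σ (-1)^|σ| k^d(B_σ)` over representatives `σ` of the
`G`-classes of chains of nontrivial `p`-subgroups of `G`, the empty chain included. -/
def S (p : ℕ) (red : integralClosure ℤ ℂ →+* F) {G : Type} [Group G] (B : (G → F) → F) (d : ℕ) : ℤ :=
  alternatingSum p G (fun H => (kB p red B d H : ℤ))

/-- The generating polynomial `∑_d S_d(B) x^d` (the terms with `d ≥ |G|` vanish). -/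
def P (p : ℕ) (red : integralClosure ℤ ℂ →+* F) {G : Type} [Group G] (B : (G → F) → F) :
    Polynomial ℤ :=
  ∑ d ∈ Finset.range (Nat.card G), Polynomial.C (S p red B d) * Polynomial.X ^ d

/-- `B` is a block of positive defect: all its ordinary irreducible characters have positive
`p`-defect. -/
def PositiveDefect (p : ℕ) (red : integralClosure ℤ ℂ →+* F) {G : Type} [Group G]
    (B : (G → F) → F) : Prop :=
  ∀ χ : G → ℂ, IsIrreducibleCharacter χ →
    (∀ f : G → F, IsClassFun f → centralValue red χ f = B f) →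
    ∃ n : ℕ, χ 1 = (n : ℂ) ∧ n.factorization p < (Nat.card G).factorization p

/-- `d(B) = n`: the defect of the block `B`, the largest `p`-defect of the ordinary irreducible
characters of `B`, is `n`. -/
def HasDefect (p : ℕ) (red : integralClosure ℤ ℂ →+* F) {G : Type} [Group G]
    (B : (G → F) → F) (n : ℕ) : Prop :=
  IsGreatest {d : ℕ | ∃ χ : G → ℂ, IsIrreducibleCharacter χ ∧
    (∀ f : G → F, IsClassFun f → centralValue red χ f = B f) ∧
    ∃ k : ℕ, χ 1 = (k : ℂ) ∧ k.factorization p + d = (Nat.card G).factorization p} n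

/-- The pairs of Dade's ordinary conjecture for groups with `O_p(G) = 1`: a finite group `G` with
`O_p(G) = 1` and a block `B` of `G` of positive defect. -/
def Adm (p : ℕ) (red : integralClosure ℤ ℂ →+* F) (G : Type) (i : Group G) (B : (G → F) → F) : Prop :=
  Finite G ∧ (∀ Q : Subgroup G, Q.Normal → IsPGroup p Q → Q = ⊥) ∧ IsBlock B ∧
    PositiveDefect p red B

open Classical in
/-- `B'` is a block of `G ≀ C` above `B ⊗ ⋯ ⊗ B`. -/
def OverWr {G C : Type} [Group G] [Group C] [Fintype C] (B : (G → F) → F)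
    (B' : (RegularWreathProduct G C → F) → F) : Prop :=
  ∀ f : G → F, IsClassFun f →
    B' (fun s => if s.right = 1 then ∏ c, f (s.left c) else 0) = B f ^ Fintype.card C

/-- A class of pairs `(G, B)` of a finite group and a block of positive defect which contains with
`(G, B)` also `(G ≀ C, B')`, `B'` the block above `B ⊗ ⋯ ⊗ B`. -/
structure Closed (p : ℕ) (red : integralClosure ℤ ℂ →+* F) (C : Type) [Group C] [Fintype C]
    (X : (G : Type) → Group G → ((G → F) → F) → Prop) : Prop where
  pairs : ∀ (G : Type) [i : Group G] (B : (G → F) → F), X G i B →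
    Finite G ∧ IsBlock B ∧ PositiveDefect p red B
  wreath : ∀ (G : Type) [i : Group G] (B : (G → F) → F), X G i B →
    ∀ B' : (RegularWreathProduct G C → F) → F, IsBlock B' → OverWr B B' →
      X (RegularWreathProduct G C) inferInstance B'

/-- A class of pairs `(G, B)` which contains with `(G, B)` also `(G × G, B ⊗ B)`. -/
def ClosedSq (X : (G : Type) → Group G → ((G → F) → F) → Prop) : Prop :=
  ∀ (G : Type) [i : Group G] (B : (G → F) → F), X G i B →
    ∀ B' : ((Fin 2 → G) → F) → F, IsBlock B' →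
      (∀ f : G → F, IsClassFun f → B' (fun x => ∏ i, f (x i)) = B f ^ 2) →
        X (Fin 2 → G) inferInstance B'

/-- (i) `S_d(B) = 0` for all pairs in `X` and all `d`. -/
def Dade (p : ℕ) (red : integralClosure ℤ ℂ →+* F)
    (X : (G : Type) → Group G → ((G → F) → F) → Prop) : Prop :=
  ∀ (G : Type) [i : Group G] (B : (G → F) → F), X G i B → ∀ d, S p red B d = 0

/-- The number `S_d(B)` has the property `Q d` for all pairs `(G, B)` in `X` and all `d` with
`R (d(B)) d`. -/
def Holds (p : ℕ) (red : integralClosure ℤ ℂ →+* F)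
    (X : (G : Type) → Group G → ((G → F) → F) → Prop) (R : ℕ → ℕ → Prop) (Q : ℕ → ℤ → Prop) : Prop :=
  ∀ (G : Type) [i : Group G] (B : (G → F) → F), X G i B → ∀ n, HasDefect p red B n →
    ∀ d : ℕ, R n d → Q d (S p red B d)

/-- the single defect `d = φ(d(B))` -/
def Single (φ : ℕ → ℕ) (n d : ℕ) : Prop := d = φ n

/-- the defects `d` with `|d - log_p d(B)| ≤ ω(d(B))` -/
def Window (p : ℕ) (ω : ℕ → ℝ) (n d : ℕ) : Prop := |(d : ℝ) - Real.logb p n| ≤ ω n

/-- The conditions for the function `φ`: it grows faster than `log_p`, but not much faster. -/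
structure Selects (p : ℕ) (φ : ℕ → ℕ) : Prop where
  /-- `φ(n) - log_p n → ∞` -/
  lim : Filter.Tendsto (fun n => (φ n : ℝ) - Real.logb p n) Filter.atTop Filter.atTop
  /-- `φ(p n + 1) ≤ φ(n) + 2` for all large `n` -/
  step : ∀ᶠ n in Filter.atTop, φ (p * n + 1) ≤ φ n + 2
  /-- `φ(n) ≤ 3 log_p n` for all large `n` -/
  upper : ∀ᶠ n in Filter.atTop, (φ n : ℝ) ≤ 3 * Real.logb p n

/-- The five conditions: (i) all sums vanish; (ii) `m` divides `S_d(B)` for the single `d = φ(d(B))`;
(iii) `|S_d(B)| ≤ ε p ^ d + c` for the single `d = φ(d(B))`, for every `ε > 0` with a constant `c`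
depending on `ε`; (iv) and (v) `S_d(B) ≤ ε p ^ d + c` and `S_d(B) ≥ - (ε p ^ d + c)`, respectively, for all
`d` with `|d - log_p d(B)| ≤ ω(d(B))`. -/
def Conditions (p : ℕ) (red : integralClosure ℤ ℂ →+* F)
    (X : (G : Type) → Group G → ((G → F) → F) → Prop) (φ : ℕ → ℕ) (ω : ℕ → ℝ) (m : ℕ) : List Prop :=
  [Dade p red X,
   Holds p red X (Single φ) fun _ s => (m : ℤ) ∣ s,
   ∀ ε : ℝ, 0 < ε → ∃ c : ℝ, Holds p red X (Single φ) fun d s => |(s : ℝ)| ≤ ε * (p : ℝ) ^ d + c,
   ∀ ε : ℝ, 0 < ε → ∃ c : ℝ, Holds p red X (Window p ω) fun d s => (s : ℝ) ≤ ε * (p : ℝ) ^ d + c,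
   ∀ ε : ℝ, 0 < ε → ∃ c : ℝ, Holds p red X (Window p ω) fun d s =>
     -(ε * (p : ℝ) ^ d + c) ≤ (s : ℝ)]

theorem kB_eq (p : ℕ) (red : integralClosure ℤ ℂ →+* F) {G : Type} [Group G] (B : (G → F) → F)
    (d : ℕ) (H : Subgroup G) : kB p red B d H =
      Pool.Agent.Q90.WR.anum p d
        (Pool.Agent.E8helper60.DD.IndB red B (Subtype.val : H → G)) := by
  unfold kB Pool.Agent.Q90.WR.anum
  refine Nat.card_congr (Equiv.subtypeEquivRight fun θ => ?_)
  rw [Pool.Agent.E8helper60.DD.mem_IndB]

theorem S_eq (p : ℕ) (red : integralClosure ℤ ℂ →+* F) {G : Type} [Group G] (B : (G → F) → F)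
    (d : ℕ) : S p red B d = Pool.Agent.E8helper60.DD.Sd p red B d := by
  unfold S Pool.Agent.E8helper60.DD.Sd
  simp only [kB_eq]

theorem P_eq (p : ℕ) (red : integralClosure ℤ ℂ →+* F) {G : Type} [Group G] [Finite G]
    (B : (G → F) → F) : P p red B = Pool.Agent.E8helper60.DD.Pz p red B := by
  ext d
  rw [Pool.Agent.E8helper60.DD.Pz_coeff]
  unfold P
  rw [Polynomial.finsetSum_coeff]
  simp only [Polynomial.coeff_C_mul_X_pow, S_eq]
  rw [Finset.sum_ite_eq]
  split_ifs with h
  · rfl
  · rw [Finset.mem_range, not_lt] at h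
    refine (Pool.Agent.E8helper60.DD.Sd_zero_of_lt red B (lt_of_lt_of_le ?_ h)).symm
    exact Nat.factorization_lt p Nat.card_pos.ne'

theorem defect_eq (p : ℕ) (red : integralClosure ℤ ℂ →+* F) {G : Type} [Group G] [Finite G]
    (B : (G → F) → F) (n : ℕ) : HasDefect p red B n ↔ Pool.Agent.H378.JW.DefEq p red B n := by
  have : Fintype G := Fintype.ofFinite G
  have key : ∀ (χ : G → ℂ), IsIrreducibleCharacter χ → ∀ d,
      ((∃ k : ℕ, χ 1 = (k : ℂ) ∧ k.factorization p + d = (Nat.card G).factorization p) ↔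
        Pool.Agent.Q90.WR.dfn p χ = d) := by
    intro χ h d
    obtain ⟨k, -, hk⟩ := Pool.Agent.Q90.WR.deg_pos (h : Pool.Agent.Helper884.IC.IsIrrChar χ)
    have hle := Pool.Agent.Q90.WR.fac_le (p := p) (h : Pool.Agent.Helper884.IC.IsIrrChar χ) hk
    rw [Pool.Agent.Q90.WR.dfn_eq p hk]
    constructor
    · rintro ⟨k', hk', h1⟩
      have h2 : k' = k := by exact_mod_cast hk'.symm.trans hk
      rw [h2] at h1
      omega
    · intro h1
      exact ⟨k, hk, by omega⟩
  rw [Pool.Agent.H378.JW.defEq_iff]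
  unfold HasDefect IsGreatest
  constructor
  · rintro ⟨⟨χ, h1, h2, h3⟩, h4⟩
    refine ⟨⟨χ, h1, h2, (key χ h1 n).1 h3⟩, fun χ' h5 h6 => ?_⟩
    exact h4 ⟨χ', h5, h6, (key χ' h5 _).2 rfl⟩
  · rintro ⟨⟨χ, h1, h2, h3⟩, h4⟩
    refine ⟨⟨χ, h1, h2, (key χ h1 n).2 h3⟩, ?_⟩
    rintro d ⟨χ', h5, h6, h7⟩
    rw [← (key χ' h5 d).1 h7]
    exact h4 χ' h5 h6

variable {p : ℕ} {red : integralClosure ℤ ℂ →+* F}

theorem Closed.clP {C : Type} [Group C] [Fintype C]
    {X : (G : Type) → Group G → ((G → F) → F) → Prop} (h : Closed p red C X) :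
    Pool.Agent.H378.JW.ClP p red C X :=
  ⟨fun G _ B hX => (h.pairs G B hX).1, fun G _ B hX => (h.pairs G B hX).2.1,
    fun G _ B hX => (h.pairs G B hX).2.2, fun G _ B hX B' h1 h2 => h.wreath G B hX B' h1 h2⟩

variable [IsAlgClosed F] [hp : Fact p.Prime] [CharP F p]

theorem adm_closed {C : Type} [Group C] [Fintype C] {q : ℕ} (hq : q.Prime)
    (hC : Nat.card C = q) : Closed p red C (Adm p red) := by
  have h : Pool.Agent.H378.JW.ClP p red C
      (fun G _ B => Finite G ∧ Pool.Agent.E8helper60.DD.NoP p G ∧ IsBlock B ∧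
        Pool.Agent.E8helper60.DD.Pos p red B) := by
    by_cases hqp : q = p
    · subst hqp
      exact Pool.Agent.H378.JW.clP_all hC
    · exact Pool.Agent.H378.JW.clQ_all hq hqp hC
  exact ⟨fun G _ B hX => ⟨hX.1, hX.2.2.1, hX.2.2.2⟩, fun G _ B hX B' h1 h2 => h.wr G B hX B' h1 h2⟩

theorem adm_sq : ClosedSq (Adm p red) := by
  rintro G i B hX B' h1 h2
  exact Pool.Agent.H378.JW.clS_all (p := p) (red := red) G B hX B' h1 (fun f hf => by
    rw [Fintype.card_fin]
    exact h2 f hf)

omit [IsAlgClosed F] hp [CharP F p] in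
theorem ClosedSq.clS {X : (G : Type) → Group G → ((G → F) → F) → Prop} (h : ClosedSq X) :
    Pool.Agent.H378.JW.ClS X := by
  intro G i B hX B' h1 h2
  refine h G B hX B' h1 fun f hf => ?_
  have h3 := h2 f hf
  rw [Fintype.card_fin] at h3
  exact h3

omit [IsAlgClosed F] hp [CharP F p] in
theorem holds_cnd {C : Type} [Group C] [Fintype C]
    {X : (G : Type) → Group G → ((G → F) → F) → Prop} (h : Closed p red C X) {R : ℕ → ℕ → Prop}
    {Q : ℕ → ℤ → Prop} : Holds p red X R Q ↔
      Pool.Agent.H378.JW.Cnd p red X fun n d s => R n d → Q d s := by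
  unfold Holds Pool.Agent.H378.JW.Cnd
  constructor
  · intro h1 G i B hX n hn d hd
    have hf := (h.pairs G B hX).1
    rw [← S_eq]
    exact h1 G B hX n ((defect_eq p red B n).2 hn) d hd
  · intro h1 G i B hX n hn d hd
    have hf := (h.pairs G B hX).1
    rw [S_eq]
    exact h1 G B hX n ((defect_eq p red B n).1 hn) d hd

omit [IsAlgClosed F] hp [CharP F p] in
theorem dade_iff {X : (G : Type) → Group G → ((G → F) → F) → Prop} : Dade p red X ↔
    ∀ (G : Type) [i : Group G] (B : (G → F) → F), X G i B → ∀ d,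
      Pool.Agent.E8helper60.DD.Sd p red B d = 0 := by
  unfold Dade
  simp only [S_eq]

omit [IsAlgClosed F] hp [CharP F p] in
theorem Dade.holds {X : (G : Type) → Group G → ((G → F) → F) → Prop} (h : Dade p red X)
    {R : ℕ → ℕ → Prop} {Q : ℕ → ℤ → Prop} (hQ : ∀ d, Q d 0) : Holds p red X R Q := by
  intro G i B hX n _ d _
  rw [h G B hX d]
  exact hQ d

section

variable {C : Type} [Group C] [Fintype C] (hC : Nat.card C = p)
  {X : (G : Type) → Group G → ((G → F) → F) → Prop} (hX : Closed p red C X)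
  {φ : ℕ → ℕ} (hφ : Selects p φ) {ω : ℕ → ℝ} (hω : Filter.Tendsto ω Filter.atTop Filter.atTop)

include hC hX hω in
theorem window (s : ℤ) (hs : s = 1 ∨ s = -1)
    (h : ∀ ε : ℝ, 0 < ε → ∃ c : ℝ, Holds p red X (Window p ω) fun d a =>
      ((s * a : ℤ) : ℝ) ≤ ε * (p : ℝ) ^ d + c) : Dade p red X := by
  rw [dade_iff]
  refine hX.clP.bound hC hω hs ?_
  intro ε hε
  obtain ⟨c, hc⟩ := h ε hε
  exact ⟨c, (holds_cnd hX).1 hc⟩

include hC hX hω in
theorem window_iff : (Dade p red X ↔ ∀ ε : ℝ, 0 < ε → ∃ c : ℝ,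
      Holds p red X (Window p ω) fun d s => (s : ℝ) ≤ ε * (p : ℝ) ^ d + c) ∧
    (Dade p red X ↔ ∀ ε : ℝ, 0 < ε → ∃ c : ℝ,
      Holds p red X (Window p ω) fun d s => -(ε * (p : ℝ) ^ d + c) ≤ (s : ℝ)) := by
  refine ⟨⟨fun h ε hε => ⟨0, h.holds fun d => ?_⟩, fun h => window hC hX hω 1 (Or.inl rfl) ?_⟩,
    ⟨fun h ε hε => ⟨0, h.holds fun d => ?_⟩, fun h => window hC hX hω (-1) (Or.inr rfl) ?_⟩⟩
  · simp only [Int.cast_zero, add_zero]
    positivity
  · intro ε hε
    obtain ⟨c, hc⟩ := h ε hε
    refine ⟨c, fun G i B hB n hn d hd => ?_⟩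
    have h2 := hc G B hB n hn d hd
    push_cast
    linarith
  · simp only [Int.cast_zero, add_zero, Left.neg_nonpos_iff]
    positivity
  · intro ε hε
    obtain ⟨c, hc⟩ := h ε hε
    refine ⟨c, fun G i B hB n hn d hd => ?_⟩
    have h2 := hc G B hB n hn d hd
    push_cast
    linarith

include hC hX hφ in
theorem bound_iff (hs : ClosedSq X) : Dade p red X ↔ ∀ ε : ℝ, 0 < ε → ∃ c : ℝ,
    Holds p red X (Single φ) fun d s => |(s : ℝ)| ≤ ε * (p : ℝ) ^ d + c := by
  refine ⟨fun h ε hε => ⟨0, h.holds fun d => ?_⟩, fun h => ?_⟩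
  · simp only [Int.cast_zero, abs_zero, add_zero]
    positivity
  · rw [dade_iff]
    refine hX.clP.bound_one hC hs.clS ⟨hφ.lim, hφ.step, hφ.upper⟩ ?_
    intro ε hε
    obtain ⟨c, hc⟩ := h ε hε
    exact ⟨c, (holds_cnd hX).1 hc⟩

include hC hX hφ in
theorem congr_iff (hs : ClosedSq X) {C' : Type} [Group C'] [Fintype C'] {q : ℕ} (hq : q.Prime)
    (hqp : q ≠ p) (hC' : Nat.card C' = q) (hX' : Closed p red C' X) {m : ℕ} (hm : q ∣ m) :
    Dade p red X ↔ Holds p red X (Single φ) fun _ s => (m : ℤ) ∣ s := by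
  refine ⟨fun h => h.holds fun d => dvd_zero _, fun h => ?_⟩
  rw [dade_iff]
  exact hX.clP.congr_one hC hq hqp hC' hs.clS hX'.clP ⟨hφ.lim, hφ.step, hφ.upper⟩ hm
    ((holds_cnd hX).1 h)

end

omit hp in
/-- **Dade's ordinary conjecture: one defect for each block decides.** Let `p` be a prime number,
`φ : ℕ → ℕ` a function with `φ(n) - log_p n → ∞` and `φ(p n + 1) ≤ φ(n) + 2`, `φ(n) ≤ 3 log_p n` for all
large `n`, for example `φ(n) = ⌊β log_p n⌋` with `1 < β < 2` (see (4)), and `ω : ℕ → ℝ` a function with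
`ω(n) → ∞`.
(1) Let `m` be a natural number which is divisible by a prime number different from `p`. The
following are equivalent (for the finite groups `G` with `O_p(G) = 1` and their blocks `B` of positive
defect `d(B)`):
(i) `S_d(B) = 0` for all `d` and all pairs `(G, B)`;
(ii) `m` divides `S_d(B)` for all pairs `(G, B)`, where `d = φ(d(B))`;
(iii) for every `ε > 0` there is a constant `c` with `|S_d(B)| ≤ ε p ^ d + c` for all pairs `(G, B)`,
where `d = φ(d(B))`;
(iv) for every `ε > 0` there is a constant `c` with `S_d(B) ≤ ε p ^ d + c` for all pairs `(G, B)` and all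
`d` with `|d - log_p d(B)| ≤ ω(d(B))`;
(v) for every `ε > 0` there is a constant `c` with `S_d(B) ≥ - (ε p ^ d + c)` for all pairs `(G, B)` and
all `d` with `|d - log_p d(B)| ≤ ω(d(B))`.
(2) Let `X` be a class of pairs of a finite group and a block of positive defect which is closed under
`(G, B) ↦ (G ≀ C, B')` for a group `C` of order `p`. Then (i), (iv), (v) are equivalent for `X`. If `X` is
also closed under `(G, B) ↦ (G × G, B ⊗ B)`, they are equivalent to (iii), and if it is moreover closed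
under `(G, B) ↦ (G ≀ C', B')` for a group `C'` of prime order `q ≠ p`, to (ii) for every multiple `m` of
`q`.
(3) Let `C` be a group of order `p` and let `B` be a block of a finite group `G`, with defect `n`. There
is exactly one block `B'` of `G ≀ C` above `B ⊗ ⋯ ⊗ B`, it has the defect `p n + 1`, and the generating
polynomials of the alternating sums satisfy
`p P(B')(x) = P(B)(x)^p + (p ^ 2 x - 1) P(B)(x^p) - p ^ 2 x P(B)(x)`.
(4) The function `φ(n) = ⌊β log_p n⌋` satisfies the conditions for `1 < β < 2`. -/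
theorem result (p : ℕ) [Fact p.Prime] (F : Type) [Field F] [IsAlgClosed F] [CharP F p]
    (red : integralClosure ℤ ℂ →+* F) (φ : ℕ → ℕ) (hφ : Selects p φ) (ω : ℕ → ℝ)
    (hω : Filter.Tendsto ω Filter.atTop Filter.atTop) :
    (∀ m : ℕ, (∃ q : ℕ, q.Prime ∧ q ≠ p ∧ q ∣ m) →
      List.TFAE (Conditions p red (Adm p red) φ ω m)) ∧
    (∀ (C : Type) [Group C] [Fintype C], Nat.card C = p →
      ∀ X : (G : Type) → Group G → ((G → F) → F) → Prop, Closed p red C X →
        (Dade p red X ↔ ∀ ε : ℝ, 0 < ε → ∃ c : ℝ,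
          Holds p red X (Window p ω) fun d s => (s : ℝ) ≤ ε * (p : ℝ) ^ d + c) ∧
        (Dade p red X ↔ ∀ ε : ℝ, 0 < ε → ∃ c : ℝ,
          Holds p red X (Window p ω) fun d s => -(ε * (p : ℝ) ^ d + c) ≤ (s : ℝ)) ∧
        (ClosedSq X →
          (Dade p red X ↔ ∀ ε : ℝ, 0 < ε → ∃ c : ℝ,
            Holds p red X (Single φ) fun d s => |(s : ℝ)| ≤ ε * (p : ℝ) ^ d + c) ∧
          ∀ (C' : Type) [Group C'] [Fintype C'], (Nat.card C').Prime → Nat.card C' ≠ p →
            Closed p red C' X → ∀ m : ℕ, Nat.card C' ∣ m →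
              (Dade p red X ↔ Holds p red X (Single φ) fun _ s => (m : ℤ) ∣ s))) ∧
    (∀ (C : Type) [Group C] [Fintype C], Nat.card C = p →
      ∀ (G : Type) [Group G] [Finite G] (B : (G → F) → F), IsBlock B →
        ∃ B' : (RegularWreathProduct G C → F) → F, IsBlock B' ∧ OverWr B B' ∧
          (∀ B'' : (RegularWreathProduct G C → F) → F, IsBlock B'' → OverWr B B'' →
            ∀ f : RegularWreathProduct G C → F, IsClassFun f → B'' f = B' f) ∧
          (∀ n, HasDefect p red B n → HasDefect p red B' (p * n + 1)) ∧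
          (p : Polynomial ℤ) * P p red B' = P p red B ^ p +
            ((p : Polynomial ℤ) ^ 2 * Polynomial.X - 1) * Polynomial.expand ℤ p (P p red B) -
            (p : Polynomial ℤ) ^ 2 * Polynomial.X * P p red B) ∧
    ∀ β : ℝ, 1 < β → β < 2 → Selects p fun n => ⌊β * Real.logb p n⌋₊ := by
  have hp : p.Prime := Fact.out
  have hcy : ∀ q : ℕ, q.Prime → ∃ (C : Type) (_ : Group C) (_ : Fintype C), Nat.card C = q := by
    intro q hq
    have : NeZero q := ⟨hq.ne_zero⟩
    exact ⟨Multiplicative (ZMod q), inferInstance, inferInstance, by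
      rw [Nat.card_eq_fintype_card, Fintype.card_multiplicative, ZMod.card]⟩
  refine ⟨?_, ?_, ?_, ?_⟩
  · rintro m ⟨q, hq, hqp, hm⟩
    obtain ⟨C, _, _, hC⟩ := hcy p hp
    obtain ⟨C', _, _, hC'⟩ := hcy q hq
    have hX : Closed p red C (Adm p red) := adm_closed hp hC
    have hX' : Closed p red C' (Adm p red) := adm_closed hq hC'
    have h1 := window_iff hC hX hω
    have h2 := bound_iff hC hX hφ adm_sq
    have h3 := congr_iff hC hX hφ adm_sq hq hqp hC' hX' hm
    unfold Conditions
    tfae_have 1 ↔ 2 := h3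
    tfae_have 1 ↔ 3 := h2
    tfae_have 1 ↔ 4 := h1.1
    tfae_have 1 ↔ 5 := h1.2
    tfae_finish
  · intro C _ _ hC X hX
    exact ⟨(window_iff hC hX hω).1, (window_iff hC hX hω).2, fun hs => ⟨bound_iff hC hX hφ hs,
      fun C' _ _ hq hqp hX' m hm => congr_iff hC hX hφ hs hq hqp rfl hX' hm⟩⟩
  · intro C _ _ hC G _ _ B hB
    obtain ⟨χ, h1, h2⟩ := Pool.Agent.E8helper46.AW.exists_char (p := p) red hB
    obtain ⟨χ', -, h3, h4, -⟩ := Pool.Agent.H378.JW.exists_overW_p (p := p) red (C := C) hC h1 h2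
    refine ⟨_, h3, h4, fun B'' h5 h6 f hf =>
      Pool.Agent.H378.JW.overW_unique_p (p := p) red hC hB h5 h3 h6 h4 f hf, fun n hn => ?_, ?_⟩
    · rw [defect_eq] at hn ⊢
      exact Pool.Agent.H378.JW.defEq_wr red hC hB hn h3 h4
    · rw [P_eq, P_eq]
      exact Pool.Agent.H378.JW.Pz_wr_p (p := p) red hC hB h3 h4
  · intro β h1 h2
    have h3 := Pool.Agent.H378.JW.sel_floor hp h1 h2
    exact ⟨h3.lim, h3.step, h3.upper⟩

end Pool.Agent.Results.MP_3f89b9_al.OneDefectDecides
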