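import Pool.Agent.H378.RS.Fam

/-!
# Dade's ordinary conjecture: one residue class decides

Let `p` be a prime number, `F` an algebraically closed field of characteristic `p` and `red` a ring
homomorphism from the algebraic integers to `F`. A `p`-block `B` of a finite group `G` is (the central
character of) a block of `F[G]`: an algebra homomorphism from the centre of `F[G]` (the class
functions `G → F` with the convolution product) to `F`. An irreducible character `θ` of a subgroup `H`
satisfies `bl(θ)^G = B` if `B` is the composition of the restriction of class functions from `G` to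
`H` with the reduction of the central character of `θ`.

Proof. Let `P(x) = ∑_d S_d(B) x^d` for Dade's alternating sums `S_d(B)`, let `C` be a group of prime
order `q` and let `P'` belong to the block `B'` of `G ≀ C` above `B ⊗ ⋯ ⊗ B`. Then
`q P' = P^q + (q² - 1) P(x^q)` if `q ≠ p`, and `p P' = P^p + (p² x - 1) P(x^p) - p² x P` if `q = p` (the
last formula is proved in `Pool.Agent.H378.JW`). Suppose that `P ≠ 0`. If `q ≠ p`, the lowest
coefficient `s` of `P` becomes `(s^q + (q² - 1) s) / q`; as in the case of the sums of all characters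
(Hensel's lemma and Dirichlet's theorem) this gives all residues modulo powers of `q`. If `q = p`, the
formula shows that the `p`-adic valuation of `P` (the minimum of the valuations of the coefficients)
is lowered by one, if it is positive. So there is a block with `P ≢ 0` modulo `p`; a power with an
exponent divisible by `p - 1` has the lowest coefficient one modulo `p`, and the wreath product with a
group of order `l ≠ p` the lowest coefficient `l` modulo `p`, for all prime numbers `l ≠ p`.
-/

set_option autoImplicit false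

noncomputable section

namespace Pool.Agent.Results.MP_3f89b9_al.OneResidueClass

open Pool.Agent.Y63.KR (alternatingSum)
open Pool.Agent.Y63.NV (IsClassFun IsBlock centralValue)
open Pool.Agent.Y63.AWC (IsIrreducibleCharacter)

variable {F : Type} [Field F]

/-- `k^d(B_σ)` for `G_σ = H`: the number of the irreducible characters `θ` of the subgroup `H` of
`p`-defect `d` with `bl(θ)^G = B`. -/
def kB (p : ℕ) (red : integralClosure ℤ ℂ →+* F) {G : Type} [Group G] (B : (G → F) → F) (d : ℕ)
    (H : Subgroup G) : ℕ :=
  Nat.card {θ : H → ℂ // (IsIrreducibleCharacter θ ∧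
      ∀ f : G → F, IsClassFun f → centralValue red θ (fun x => f x) = B f) ∧
    ∃ n : ℕ, θ 1 = (n : ℂ) ∧ n.factorization p + d = (Nat.card H).factorization p}

/-- Dade's alternating sum `S_d(B) = ∑_σ (-1)^|σ| k^d(B_σ)` over representatives `σ` of the
`G`-classes of chains of nontrivial `p`-subgroups of `G`, the empty chain included. -/
def S (p : ℕ) (red : integralClosure ℤ ℂ →+* F) {G : Type} [Group G] (B : (G → F) → F) (d : ℕ) : ℤ :=
  alternatingSum p G (fun H => (kB p red B d H : ℤ))

/-- `B` is a block of positive defect: all its ordinary irreducible characters have positive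
`p`-defect. -/
def PositiveDefect (p : ℕ) (red : integralClosure ℤ ℂ →+* F) {G : Type} [Group G]
    (B : (G → F) → F) : Prop :=
  ∀ χ : G → ℂ, IsIrreducibleCharacter χ →
    (∀ f : G → F, IsClassFun f → centralValue red χ f = B f) →
    ∃ n : ℕ, χ 1 = (n : ℂ) ∧ n.factorization p < (Nat.card G).factorization p

/-- The pairs of Dade's ordinary conjecture for groups with `O_p(G) = 1`: a finite group `G` with
`O_p(G) = 1` and a block `B` of `G` of positive defect. -/
def Adm (p : ℕ) (red : integralClosure ℤ ℂ →+* F) (G : Type) (i : Group G) (B : (G → F) → F) : Prop :=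
  Finite G ∧ (∀ Q : Subgroup G, Q.Normal → IsPGroup p Q → Q = ⊥) ∧ IsBlock B ∧
    PositiveDefect p red B

open Classical in
/-- `B'` is a block of `G ≀ C` above `B ⊗ ⋯ ⊗ B`. -/
def OverWr {G C : Type} [Group G] [Group C] [Fintype C] (B : (G → F) → F)
    (B' : (RegularWreathProduct G C → F) → F) : Prop :=
  ∀ f : G → F, IsClassFun f →
    B' (fun s => if s.right = 1 then ∏ c, f (s.left c) else 0) = B f ^ Fintype.card C

/-- `B'` is the block `B ⊗ ⋯ ⊗ B` of the direct power `G^n`. -/
def OverPw {G : Type} [Group G] {n : ℕ} (B : (G → F) → F) (B' : ((Fin n → G) → F) → F) : Prop :=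
  ∀ f : G → F, IsClassFun f → B' (fun x => ∏ i, f (x i)) = B f ^ n

/-- A class of pairs `(G, B)` of a finite group and a block of positive defect which contains with
`(G, B)` also `(G ≀ C, B')`, for every group `C` of prime order (for every group `C` of prime order
different from `p` if `E` does not hold), `B'` the block above `B ⊗ ⋯ ⊗ B`, and the direct powers
`(G^n, B ⊗ ⋯ ⊗ B)`. -/
structure Closed (p : ℕ) (red : integralClosure ℤ ℂ →+* F) (E : Prop)
    (X : (G : Type) → Group G → ((G → F) → F) → Prop) : Prop where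
  pairs : ∀ (G : Type) [i : Group G] (B : (G → F) → F), X G i B →
    Finite G ∧ IsBlock B ∧ PositiveDefect p red B
  wreath : ∀ (C : Type) [Group C] [Fintype C], (Nat.card C).Prime → (Nat.card C = p → E) →
    ∀ (G : Type) [i : Group G] (B : (G → F) → F), X G i B →
      ∀ B' : (RegularWreathProduct G C → F) → F, IsBlock B' → OverWr B B' →
        X (RegularWreathProduct G C) inferInstance B'
  power : ∀ (n : ℕ), 0 < n → ∀ (G : Type) [i : Group G] (B : (G → F) → F), X G i B →
    ∀ B' : ((Fin n → G) → F) → F, IsBlock B' → OverPw B B' → X (Fin n → G) inferInstance B'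

/-- `S_d(B) = 0` for all pairs in `X` and all `d`. -/
def Dade (p : ℕ) (red : integralClosure ℤ ℂ →+* F)
    (X : (G : Type) → Group G → ((G → F) → F) → Prop) : Prop :=
  ∀ (G : Type) [i : Group G] (B : (G → F) → F), X G i B → ∀ d, S p red B d = 0

/-- For every `ε > 0` there is a constant `c` with `S_d(B) ≤ c |G| ^ ε` for all pairs `(G, B)` in `X`
and all `d` divisible by `M` with `S_d(B) ≡ r` modulo `m`. -/
def Small (p : ℕ) (red : integralClosure ℤ ℂ →+* F)
    (X : (G : Type) → Group G → ((G → F) → F) → Prop) (M m : ℕ) (r : ℤ) : Prop :=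
  ∀ ε : ℝ, 0 < ε → ∃ c : ℝ, ∀ (G : Type) [i : Group G] (B : (G → F) → F), X G i B →
    ∀ d, M ∣ d → S p red B d ≡ r [ZMOD m] → (S p red B d : ℝ) ≤ c * (Nat.card G : ℝ) ^ ε

/-- `S_d(B)` is not congruent to `r` modulo `m` for any pair in `X` and any `d` divisible by `M`. -/
def Missed (p : ℕ) (red : integralClosure ℤ ℂ →+* F)
    (X : (G : Type) → Group G → ((G → F) → F) → Prop) (M m : ℕ) (r : ℤ) : Prop :=
  ∀ (G : Type) [i : Group G] (B : (G → F) → F), X G i B → ∀ d, M ∣ d → ¬ S p red B d ≡ r [ZMOD m]

theorem kB_eq (p : ℕ) (red : integralClosure ℤ ℂ →+* F) {G : Type} [Group G] (B : (G → F) → F)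
    (d : ℕ) (H : Subgroup G) : kB p red B d H =
      Pool.Agent.Q90.WR.anum p d
        (Pool.Agent.E8helper60.DD.IndB red B (Subtype.val : H → G)) := by
  unfold kB Pool.Agent.Q90.WR.anum
  refine Nat.card_congr (Equiv.subtypeEquivRight fun θ => ?_)
  rw [Pool.Agent.E8helper60.DD.mem_IndB]

theorem S_eq (p : ℕ) (red : integralClosure ℤ ℂ →+* F) {G : Type} [Group G] (B : (G → F) → F)
    (d : ℕ) : S p red B d = Pool.Agent.E8helper60.DD.Sd p red B d := by
  unfold S Pool.Agent.E8helper60.DD.Sd
  simp only [kB_eq]

variable {p : ℕ} {red : integralClosure ℤ ℂ →+* F}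

theorem Closed.clA {E : Prop} {X : (G : Type) → Group G → ((G → F) → F) → Prop}
    (h : Closed p red E X) : Pool.Agent.H378.RS.ClA p red E X :=
  ⟨fun G _ B hX => (h.pairs G B hX).1, fun G _ B hX => (h.pairs G B hX).2.1,
    fun G _ B hX => (h.pairs G B hX).2.2,
    fun C _ _ hC hE G _ B hX B' h1 h2 => h.wreath C hC hE G B hX B' h1 h2,
    fun n hn G _ B hX B' h1 h2 => h.power n hn G B hX B' h1 fun f hf => by
      have h3 := h2 f hf
      rw [Fintype.card_fin] at h3
      exact h3⟩

variable [IsAlgClosed F] [hp : Fact p.Prime] [CharP F p]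

theorem adm_closed : Closed p red True (Adm p red) := by
  have h := Pool.Agent.H378.RS.clA_all (p := p) (red := red)
  exact ⟨fun G _ B hX => ⟨hX.1, hX.2.2.1, hX.2.2.2⟩,
    fun C _ _ hC hE G _ B hX B' h1 h2 => h.wr C hC hE G B hX B' h1 h2,
    fun n hn G _ B hX B' h1 h2 => h.pw n hn G B hX B' h1 fun f hf => by
      rw [Fintype.card_fin]
      exact h2 f hf⟩

theorem small {E : Prop} {X : (G : Type) → Group G → ((G → F) → F) → Prop}
    (h : Closed p red E X) {M : ℕ} (hM : 0 < M) {q : ℕ} (hq : q.Prime) (hqp : q ≠ p) (a : ℕ) (r : ℤ)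
    (hs : Small p red X M (q ^ a) r) : Dade p red X := by
  intro G i B hX d
  rw [S_eq]
  refine h.clA.boundL hM hq hqp a r (fun ε hε => ?_) G B hX d
  obtain ⟨c, hc⟩ := hs ε hε
  refine ⟨c, fun G i B hX d hd h1 => ?_⟩
  rw [← S_eq] at h1 ⊢
  refine hc G B hX d hd ?_
  rw [Int.modEq_comm, Int.modEq_iff_dvd]
  push_cast
  exact h1

theorem missed {X : (G : Type) → Group G → ((G → F) → F) → Prop}
    (h : Closed p red True X) {M : ℕ} (hM : 0 < M) {r : ℤ} (hr : ¬ (p : ℤ) ∣ r)
    (hs : Missed p red X M p r) : Dade p red X := by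
  intro G i B hX d
  rw [S_eq]
  refine h.clA.resP hM hr (fun G i B hX d hd h1 => hs G B hX d hd ?_) G B hX d
  rw [← S_eq] at h1
  rw [Int.modEq_comm, Int.modEq_iff_dvd]
  exact h1

omit [IsAlgClosed F] hp [CharP F p] in
theorem Dade.missed {X : (G : Type) → Group G → ((G → F) → F) → Prop} (h : Dade p red X)
    {M m : ℕ} {r : ℤ} (hr : ¬ (m : ℤ) ∣ r) : Missed p red X M m r := by
  intro G i B hX d _ h1
  rw [h G B hX d, Int.modEq_iff_dvd, sub_zero] at h1
  exact hr h1

omit hp in
/-- **Dade's ordinary conjecture: one residue class decides.** Let `p` be a prime number, `M ≥ 1` and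
`r` an integer.
(1) Let `X` be a class of pairs `(G, B)` of a finite group `G` and a `p`-block `B` of `G` of positive
defect, which is closed under direct powers and under `(G, B) ↦ (G ≀ C, B')` for all groups `C` of
prime order different from `p`, and let `m` be a power of a prime number `q ≠ p`. The following are
equivalent: `S_d(B) = 0` for all pairs in `X` and all `d`; for every `ε > 0` there is a constant `c`
with `S_d(B) ≤ c |G| ^ ε` for all pairs in `X` and all `d` divisible by `M` with `S_d(B) ≡ r` modulo
`m`. If `m` does not divide `r`, these are equivalent to: for `d` divisible by `M` no `S_d(B)` is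
congruent to `r` modulo `m`.
(2) Let `X` be as in (1), and closed also under `(G, B) ↦ (G ≀ C, B')` for the groups `C` of order `p`.
Suppose that `p` does not divide `r`. Then `S_d(B) = 0` for all pairs in `X` and all `d` if and only if
for `d` divisible by `M` no `S_d(B)` is congruent to `r` modulo `p`.
(3) The class of all pairs with `O_p(G) = 1` satisfies the conditions. For every integer `m ≥ 2`
Dade's conjecture for the groups `G` with `O_p(G) = 1` is equivalent to: `m` divides `S_d(B)` for all
these pairs and all `d` divisible by `M`. -/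
theorem result (p : ℕ) [Fact p.Prime] (F : Type) [Field F] [IsAlgClosed F] [CharP F p]
    (red : integralClosure ℤ ℂ →+* F) (M : ℕ) (hM : 0 < M) (r : ℤ) :
    (∀ X : (G : Type) → Group G → ((G → F) → F) → Prop, Closed p red False X →
      ∀ q a : ℕ, q.Prime → q ≠ p →
        (Dade p red X ↔ Small p red X M (q ^ a) r) ∧
        (¬ ((q ^ a : ℕ) : ℤ) ∣ r → (Dade p red X ↔ Missed p red X M (q ^ a) r))) ∧
    (∀ X : (G : Type) → Group G → ((G → F) → F) → Prop, Closed p red True X →
      ¬ (p : ℤ) ∣ r → (Dade p red X ↔ Missed p red X M p r)) ∧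
    Closed p red True (Adm p red) ∧
    ∀ m : ℕ, 2 ≤ m → (Dade p red (Adm p red) ↔
      ∀ (G : Type) [i : Group G] (B : (G → F) → F), Adm p red G i B → ∀ d, M ∣ d →
        (m : ℤ) ∣ S p red B d) := by
  refine ⟨fun X hX q a hq hqp => ⟨⟨fun h ε _ => ⟨0, fun G i B hB d _ _ => ?_⟩,
    small hX hM hq hqp a r⟩, fun hr => ⟨fun h => h.missed hr, fun h => small hX hM hq hqp a r
      fun ε _ => ⟨0, fun G i B hB d hd h1 => (h G B hB d hd h1).elim⟩⟩⟩,
    fun X hX hr => ⟨fun h => h.missed hr, missed hX hM hr⟩, adm_closed, fun m hm =>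
      ⟨fun h G i B hB d _ => ?_, fun h => ?_⟩⟩
  · rw [h G B hB d, Int.cast_zero, zero_mul]
  · rw [h G B hB d]
    exact dvd_zero _
  · obtain ⟨q, hq, hqm⟩ := Nat.exists_prime_and_dvd (n := m) (by omega)
    have hq1 : ¬ (q : ℤ) ∣ 1 := fun h1 => hq.one_lt.ne'
      (Nat.dvd_one.1 (by exact_mod_cast h1))
    have hmis : Missed p red (Adm p red) M q 1 := by
      intro G i B hB d hd h1
      have h2 : (q : ℤ) ∣ S p red B d := (Int.natCast_dvd_natCast.2 hqm).trans (h G B hB d hd)
      rw [Int.modEq_iff_dvd] at h1
      exact hq1 ((dvd_sub_left h2).1 h1)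
    by_cases hqp : q = p
    · subst hqp
      exact missed adm_closed hM hq1 hmis
    · refine small (adm_closed (p := p) (red := red)) hM hq hqp 1 1 fun ε _ => ⟨0, ?_⟩
      intro G i B hB d hd h1
      rw [pow_one] at h1
      exact (hmis G B hB d hd h1).elim

end Pool.Agent.Results.MP_3f89b9_al.OneResidueClass
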