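import Pool.Agent.H373.PD.P12

/-!
# Dade's conjecture: perfect groups with three normal subgroups modulo the centre

Let `p` be a prime, and let `q > 7` be a prime with `p ∣ q + 1` (and `4 ∣ q + 1` if `p = 2`); there
are infinitely many such `q`. We use the following finite groups.

* `X_n`: the permutational wreath product of `PSL(2, q)` and the alternating group `A_n` in its action
on the `n (n - 1)` ordered pairs of distinct points.
* `X_H = PSL(2, q) ^ (H / Z(H)) ⋊ H`, where `H` permutes the factors by left multiplication, for the
groups `H = SL(N, r) / K` with `N ≥ 3`, `r` a prime and `K` a group of scalar matrices (type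
`HS N r δ`), and for the direct products `H` of `k` such groups (type `HP k N r δ`).

Let `Λ` be a complete discrete valuation ring with residue field of characteristic `p`, which
contains a primitive root of unity of order `(q - 1) / 2` (this is true if the residue field is
algebraically closed), and let `W` be a field containing `Λ`. For a finite group `G` with
`O_p(G) ≤ Z(G)`, a block `B` of `ΛG` and `d ≥ 0` let `S_d(B) = ∑ (-1) ^ |C| k^d(B_C)`, over the
conjugacy classes of chains `C = (O_p(G) = P_0 < P_1 < ... < P_n)` of `p`-subgroups of `G`, where
`k^d(B_C)` is the number of irreducible characters (over `W`) of defect `d` in the blocks of `N_G(C)`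
which induce `B`. Dade's conjecture says that `S_d(B) = 0` for all `d` and all `B` the defect groups of
which contain `O_p(G)` properly.

(1) For `n ≥ 5` the group `X_n` has exactly three normal subgroups `1 < M < X_n`, where
`M = PSL(2, q) ^ (n (n - 1))` and `X_n / M = A_n`; it is isomorphic to a primitive permutation group,
and `O_p(X_n) = 1`. For `H = SL(N, r) / K` the group `X = X_H` is perfect with cyclic centre,
`O_p(X) ≤ Z(X)`, and `X / Z(X)` is a primitive permutation group with exactly three normal subgroups.
If `H` is a direct product of such groups, then `X` is perfect, `O_p(X) ≤ Z(X)`, `X / Z(X)` is a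
primitive permutation group, and `X` has a normal subgroup `M`, a direct power of a nonabelian simple
group with `C_X(M) = Z(X)`, such that all normal subgroups of `X` are contained in `Z(X)` or contain
`M`.

(2) Let `G` be any finite group with `O_p(G) ≤ Z(G)`. The blocks `B` of `ΛG` are reproduced by blocks
`B'` of `ΛX` (a matrix ring over `B`, isomorphic defect groups, which contain `O_p(X)` properly if and
only if those of `B` contain `O_p(G)` properly, and `S_d(B') = S_d(B)` for all `d`) for `X = X_n`,
`n ≥ |G| ^ 2 + 3 |G| + 5`, if `O_p(G) = 1`, for some `X = X_H`, `H = SL(N, r) / K`, if `O_p(G)` is
cyclic, and for some `X = X_H`, `H` a direct product of such groups, in general. In the last two cases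
`O_p(X) = Z(X)`.

(3) So Dade's conjecture is true for the finite groups `G` with `O_p(G) = 1` if and only if it is true
for the `X_n`, `n` in an infinite set; it is true for the finite groups `G` such that `O_p(G)` is
central and cyclic if and only if it is true for the perfect groups `X` with cyclic centre
`Z(X) = O_p(X)` such that `X / Z(X)` is a primitive permutation group with exactly three normal
subgroups; and it is true for all finite groups `G` with `O_p(G) ≤ Z(G)` if and only if it is true for
the groups `X` with `O_p(X) = Z(X)` with the structure described at the end of (1). The last
equivalence is also true for any property of the function `d ↦ S_d(B)` in place of `S_d(B) = 0`.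

Idea of the proof. If `O_p(G)` is cyclic of order `m`, then for a prime `r` with `r = 1 + m` modulo
`m ^ 2` a sum of copies of the representation induced from a faithful linear character of `O_p(G)` over
the field with `r` elements embeds `G` into `H = SL(N, r) / K` such that `O_p(G)` is mapped onto the
centre of `H`. In general one takes the product of such embeddings of quotients of `G`. The stabiliser
in `H` of the subset `G / O_p(G)` of `H / Z(H)` is `G` (and every finite group is the stabiliser in
`A_n` of a set of ordered pairs). Two linear characters of a Borel subgroup of `PSL(2, q)` of order
prime to `p` define a linear character of a subgroup `V` of order prime to `p` of the base group; `G`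
normalises `V` and fixes the linear character, and Mackey's condition holds outside `V G`, so that
induction from `V G` to `X` identifies the blocks and characters of `G` with blocks and characters of
`X`. For every chain `C` of `p`-subgroups of `G` the normaliser of `C` in `X` has a subgroup of the
same kind, the Brauer homomorphism is compatible with the two inductions, the degrees are multiplied by
the index of this subgroup, and the chains of `X` which contribute to the sum for `B'` are, up to
conjugacy, the chains of `G` which contribute to the sum for `B`.
-/

set_option autoImplicit false

open Pool.Agent.H373.BU Pool.Agent.H373.MN Pool.Agent.H373.PD IsLocalRing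

theorem Pool.Agent.Results.MP_3f89b9_al.ThreeNormalModuloCentre.result (p : ℕ) [Fact p.Prime] :
    (∀ N : ℕ, ∃ q, N < q ∧ Good p q) ∧
    ∀ q, Good p q → FamO p q ∧
      ∀ (L : Type) [CommRing L] [IsDomain L] [IsDiscreteValuationRing L]
        [IsAdicComplete (maximalIdeal L) L] [CharP (ResidueField L) p] (W : Type) [Field W]
        (s : L →+* W), Function.Injective s →
        (IsAlgClosed (ResidueField L) → ∃ ζ : L, IsPrimitiveRoot ζ ((q - 1) / 2)) ∧
        ((∃ ζ : L, IsPrimitiveRoot ζ ((q - 1) / 2)) →
          ReproAllO p q s ∧
          (∀ S : Set ℕ, S.Infinite →
            ((∀ (G : Type) [Group G] [Finite G], Op p G = ⊥ → DadeO p s G) ↔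
              ∀ n ∈ S, 5 ≤ n → DadeO p s (XP n q))) ∧
          ((∀ (G : Type) [Group G] [Finite G], Op p G ≤ Subgroup.center G →
              IsCyclic (Op p G) → DadeO p s G) ↔
            ∀ (X : Type) [Group X] [Finite X], Mod3 X → Op p X = Subgroup.center X →
              DadeO p s X) ∧
          ((∀ (G : Type) [Group G] [Finite G], Op p G ≤ Subgroup.center G → DadeO p s G) ↔
            ∀ (X : Type) [Group X] [Finite X], Mod1 X → Op p X = Subgroup.center X →
              DadeO p s X) ∧
          ∀ R : (ℕ → ℤ) → Prop,
            (∀ (G : Type) [Group G] [Finite G], Op p G ≤ Subgroup.center G →
              ∀ b : MonoidAlgebra L G, IsBlock b → AboveO p b → R fun d => dadeO p s d b) ↔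
            ∀ (X : Type) [Group X] [Finite X], Mod1 X → Op p X = Subgroup.center X →
              ∀ b : MonoidAlgebra L X, IsBlock b → AboveO p b →
                R fun d => dadeO p s d b) :=
  dade_full p
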